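import Mathlib

namespace Pool.Agent.Results.MP_3ac9ea_co.Stable

open Finset Polynomial

/-- restricted growth functions of length `n` (positions `0, …, n-1`) -/
def RGF {n : ℕ} (w : Fin n → ℕ) : Prop := ∀ i, 1 ≤ w i ∧ w i ≤ 1 + (Iio i).sup w

def Avoids1221 {n : ℕ} (w : Fin n → ℕ) : Prop :=
  ¬ ∃ a b c d, a < b ∧ b < c ∧ c < d ∧ w a = w d ∧ w d < w b ∧ w b = w c

def rb {n : ℕ} (w : Fin n → ℕ) : ℕ := ∑ j, (((Ioi j).image w).filter (w j < ·)).card

noncomputable def RB (n : ℕ) : ℤ[X] := ∑ᶠ w ∈ {w : Fin n → ℕ | RGF w ∧ Avoids1221 w}, X ^ rb w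

theorem le_pos {n : ℕ} {w : Fin n → ℕ} (h : RGF w) (i : Fin n) : w i ≤ i + 1 := by
  induction i using WellFoundedLT.induction with
  | ind i ih =>
    have : (Iio i).sup w ≤ i := Finset.sup_le fun j hj => by
      have := ih j (mem_Iio.1 hj)
      have : j.val < i.val := (mem_Iio.1 hj : j < i)
      omega
    have := (h i).2
    omega

theorem fin (n : ℕ) : {w : Fin n → ℕ | RGF w ∧ Avoids1221 w}.Finite :=
  (Set.Finite.pi' fun i : Fin n => Set.finite_Iic (i.val + 1)).subset fun _ hw i => le_pos hw.1 i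

theorem coeff_RB (n k : ℕ) :
    (RB n).coeff k = {w : Fin n → ℕ | (RGF w ∧ Avoids1221 w) ∧ rb w = k}.ncard := by
  classical
  rw [RB, finsum_mem_eq_finite_toFinset_sum _ (fin n), finsetSum_coeff]
  simp only [coeff_X_pow]
  rw [Finset.sum_boole, ← Set.ncard_coe_finset]
  congr 2
  ext w
  simp [eq_comm]

/-- smaller letters occur before -/
theorem before {n : ℕ} {w : Fin n → ℕ} (h : RGF w) (i : Fin n) (x : ℕ) (h1 : 1 ≤ x) (hx : x < w i) :
    ∃ j < i, w j = x := by
  induction i using WellFoundedLT.induction with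
  | ind i ih =>
    have h2 := (h i).2
    obtain ⟨j, hj, hs⟩ := (Finset.le_sup_iff (s := Iio i) (f := w) (a := x) (by simp; omega)).1 (by omega)
    rcases hs.eq_or_lt with e | e
    · exact ⟨j, mem_Iio.1 hj, e.symm⟩
    · obtain ⟨l, hl, e⟩ := ih j (mem_Iio.1 hj) e
      exact ⟨l, hl.trans (mem_Iio.1 hj), e⟩

theorem last_eq {n : ℕ} {w : Fin (n + 2) → ℕ} (h : RGF w) (ha : Avoids1221 w) (hn : 2 * rb w + 2 ≤ n) :
    w (Fin.last _) = w (Fin.last n).castSucc := by
  by_contra hne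
  set c : Fin (n + 2) → ℕ := fun j => (((Ioi j).image w).filter (w j < ·)).card with hc
  have h1 : (univ.filter fun j => c j ≠ 0).card ≤ rb w := by
    rw [Finset.card_eq_sum_ones, rb, Finset.sum_filter]
    exact Finset.sum_le_sum fun j _ => by split_ifs with h <;> simp only [hc] at h ⊢ <;> omega
  have hz : ∀ j, c j = 0 → ∀ i, j < i → w i ≤ w j := fun j hj i hi => by
    by_contra hl
    have := Finset.card_eq_zero.1 hj
    exact Finset.notMem_empty (w i) (this ▸ mem_filter.2 ⟨mem_image_of_mem _ (mem_Ioi.2 hi), by omega⟩)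
  have h0 : w 0 = 1 := by have := le_pos h 0; have := (h 0).1; simp at *; omega
  have hm : ∀ i, w i ≤ rb w + 1 := fun i => by
    have : Finset.Ioc 1 (w i) ⊆ ((Ioi 0).image w).filter (w 0 < ·) := fun x hx => by
      rw [mem_Ioc] at hx
      obtain ⟨j, e⟩ : ∃ j, w j = x := by
        rcases hx.2.eq_or_lt with e | e
        · exact ⟨i, e.symm⟩
        · obtain ⟨j, -, e⟩ := before h i x hx.1.le e
          exact ⟨j, e⟩
      refine mem_filter.2 ⟨mem_image.2 ⟨j, mem_Ioi.2 (Fin.pos_iff_ne_zero.2 ?_), e⟩, by omega⟩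
      rintro rfl; omega
    have h3 := Finset.card_le_card this
    have h4 : c 0 ≤ rb w := Finset.single_le_sum (f := c) (fun _ _ => Nat.zero_le _) (mem_univ _)
    simp only [Nat.card_Ioc] at h3
    simp only [hc] at h4
    omega
  have h2 : (univ.filter fun j => c j = 0 ∧ j.val < n).card ≤ (Finset.Icc 1 (rb w + 1)).card := by
    refine Finset.card_le_card_of_injOn w (fun j _ => by simpa using ⟨(h j).1, hm j⟩) ?_
    have key : ∀ i j, c j = 0 → j.val < n → i < j → w i ≠ w j := fun i j hj hjn hij e => by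
      have a1 := hz j hj (Fin.last _) (by rw [Fin.lt_def]; simp; omega)
      have a2 := hz j hj (Fin.last n).castSucc (by rw [Fin.lt_def]; simp; omega)
      obtain ⟨d, hd, hw⟩ : ∃ d, j < d ∧ w d < w j := by
        by_cases a3 : w (Fin.last _) = w j
        · exact ⟨(Fin.last n).castSucc, by rw [Fin.lt_def]; simp; omega, by omega⟩
        · exact ⟨Fin.last _, by rw [Fin.lt_def]; simp; omega, by omega⟩
      obtain ⟨a, hai, e'⟩ := before h i (w d) (h d).1 (by omega)
      exact ha ⟨a, i, j, d, hai, hij, hd, e', by omega, e⟩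
    intro i hi j hj e
    simp only [coe_filter, mem_univ, true_and, Set.mem_ofPred_eq] at hi hj
    rcases lt_trichotomy i j with l | l | l
    · exact absurd e (key i j hj.1 hj.2 l)
    · exact l
    · exact absurd e.symm (key j i hi.1 hi.2 l)
  have h3 : (univ : Finset (Fin (n + 2))) ⊆ (univ.filter fun j => c j ≠ 0) ∪
      (univ.filter fun j => c j = 0 ∧ j.val < n) ∪ {Fin.last _, (Fin.last n).castSucc} := by
    intro j _
    simp only [mem_union, mem_filter, mem_univ, true_and, mem_insert, mem_singleton, Fin.ext_iff,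
      Fin.val_last, Fin.val_castSucc]
    omega
  have h4 := (Finset.card_le_card h3).trans ((Finset.card_union_le _ _).trans
    (Nat.add_le_add (Finset.card_union_le _ _) (Finset.card_le_two)))
  simp only [card_univ, Fintype.card_fin, Nat.card_Icc] at h2 h4
  omega

theorem transfer {n : ℕ} {w : Fin (n + 2) → ℕ} (e : w (Fin.last _) = w (Fin.last n).castSucc) :
    (RGF w ↔ RGF (Fin.init w)) ∧ (Avoids1221 w ↔ Avoids1221 (Fin.init w)) ∧ rb w = rb (Fin.init w) := by
  refine ⟨?_, ?_, ?_⟩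
  · have hs : ∀ i : Fin (n + 1), (Iio i.castSucc).sup w = (Iio i).sup (Fin.init w) := fun i => by
      rw [← Fin.map_castSuccEmb_Iio, Finset.sup_map]; rfl
    refine ⟨fun h i => hs i ▸ h i.castSucc, fun h i => ?_⟩
    induction i using Fin.lastCases with
    | cast i => exact (hs i).symm ▸ h i
    | last =>
      refine ⟨e ▸ (h (Fin.last n)).1, e ▸ le_add_left ?_⟩
      exact Finset.le_sup (f := w) (mem_Iio.2 (Fin.castSucc_lt_last _))
  · refine not_congr ⟨?_, ?_⟩
    · rintro ⟨a, b, c, d, h1, h2, h3, h4, h5, h6⟩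
      have hc := Fin.ne_last_of_lt h3
      have hb := Fin.ne_last_of_lt h2
      have ha := Fin.ne_last_of_lt h1
      obtain ⟨a, rfl⟩ := Fin.exists_castSucc_eq.2 ha
      obtain ⟨b, rfl⟩ := Fin.exists_castSucc_eq.2 hb
      obtain ⟨c, rfl⟩ := Fin.exists_castSucc_eq.2 hc
      induction d using Fin.lastCases with
      | cast d => exact ⟨a, b, c, d, h1, h2, h3, h4, h5, h6⟩
      | last =>
        refine ⟨a, b, c, Fin.last _, h1, h2, Fin.lt_last_iff_ne_last.2 ?_, h4.trans e, e.symm.trans_lt h5, h6⟩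
        rintro rfl
        omega
    · rintro ⟨a, b, c, d, h1, h2, h3, h4, h5, h6⟩
      exact ⟨a.castSucc, b.castSucc, c.castSucc, d.castSucc, h1, h2, h3, h4, h5, h6⟩
  · rw [rb, Fin.sum_univ_castSucc, rb]
    have hl : Ioi (Fin.last (n + 1)) = ∅ := Finset.Ioi_eq_empty.2 isMax_top
    simp only [hl, image_empty, filter_empty, card_empty, add_zero]
    refine Finset.sum_congr rfl fun j _ => congrArg _ ?_
    ext x
    simp only [mem_filter, mem_image, mem_Ioi, Fin.init]
    constructor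
    · rintro ⟨⟨i, hi, rfl⟩, h⟩
      induction i using Fin.lastCases with
      | cast i => exact ⟨⟨i, hi, rfl⟩, h⟩
      | last =>
        refine ⟨⟨Fin.last _, Fin.lt_last_iff_ne_last.2 ?_, e.symm⟩, h⟩
        rintro rfl
        omega
    · rintro ⟨⟨i, hi, rfl⟩, h⟩
      exact ⟨⟨i.castSucc, hi, rfl⟩, h⟩

theorem step (n k : ℕ) (hn : 2 * k + 2 ≤ n) : (RB (n + 2)).coeff k = (RB (n + 1)).coeff k := by
  rw [coeff_RB, coeff_RB]
  congr 1
  refine Set.ncard_congr (fun w _ => Fin.init w) ?_ ?_ ?_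
  · rintro w ⟨⟨h1, h2⟩, rfl⟩
    obtain ⟨t1, t2, t3⟩ := transfer (last_eq h1 h2 hn)
    exact ⟨⟨t1.1 h1, t2.1 h2⟩, t3.symm⟩
  · rintro v w ⟨⟨h1, h2⟩, h3⟩ ⟨⟨g1, g2⟩, g3⟩ e
    have e1 := last_eq h1 h2 (h3 ▸ hn)
    have e2 := last_eq g1 g2 (g3 ▸ hn)
    funext i
    induction i using Fin.lastCases with
    | cast i => exact congrFun e i
    | last => rw [e1, e2]; exact congrFun e _
  · rintro w ⟨⟨h1, h2⟩, h3⟩
    obtain ⟨t1, t2, t3⟩ := transfer (w := Fin.snoc w (w (Fin.last n))) (by simp)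
    rw [Fin.init_snoc] at t1 t2 t3
    exact ⟨Fin.snoc w (w (Fin.last n)), ⟨⟨t1.2 h1, t2.2 h2⟩, t3.trans h3⟩, Fin.init_snoc _ _⟩

theorem result (k : ℕ) : ∃ N : ℕ, ∀ n, N ≤ n → (RB n).coeff k = (RB N).coeff k := by
  refine ⟨2 * k + 3, fun n hn => ?_⟩
  induction n, hn using Nat.le_induction with
  | base => rfl
  | succ n hn ih =>
    obtain ⟨m, rfl⟩ : ∃ m, n = m + 1 := ⟨n - 1, by omega⟩
    rw [step m k (by omega), ih]

end Pool.Agent.Results.MP_3ac9ea_co.Stable
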